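import Pool.Agent.V203PG.B2

set_option autoImplicit false
open Set Filter Topology

namespace Pool.Agent.Results.MP_1ba01c_an.FirstNotCollinear

/-- The phase-lock area `L_r` of `φ' = (1/ω)(-sin φ + B + A cos τ)`: the points `(B, A)` with
rotation number `r`. -/
def Area (ω : ℝ) (r : ℤ) : Set (ℝ × ℝ) :=
  {p | ∃ φ : ℝ → ℝ,
    (∀ τ : ℝ, HasDerivAt φ (1 / ω * (-Real.sin (φ τ) + p.1 + p.2 * Real.cos τ)) τ) ∧
    Tendsto (fun τ : ℝ => φ τ / τ) atTop (𝓝 (r : ℝ))}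

/-- `p` is an adjacency of `L_r` with positive ordinate: the horizontal slice of `L_r` at the
height of `p` is the single point `p`. -/
def IsUpperAdjacency (ω : ℝ) (r : ℤ) (p : ℝ × ℝ) : Prop :=
  0 < p.2 ∧ {q : ℝ × ℝ | q ∈ Area ω r ∧ q.2 = p.2} = {p}

/-- `p` is the adjacency `A_{r,k}`: an adjacency of `L_r` with positive ordinate such that exactly
`k - 1` adjacencies of `L_r` with positive ordinate have a smaller ordinate. -/
def IsKthAdjacency (ω : ℝ) (r : ℤ) (k : ℕ) (p : ℝ × ℝ) : Prop :=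
  1 ≤ k ∧ IsUpperAdjacency ω r p ∧
    {q : ℝ × ℝ | IsUpperAdjacency ω r q ∧ q.2 < p.2}.encard = ((k - 1 : ℕ) : ℕ∞)

theorem mem_Area {ω : ℝ} (hω : 0 < ω) (r : ℤ) (B A : ℝ) :
    (B, A) ∈ Area ω r ↔ (B / ω, A / ω) ∈ H535R3.Ls r (1 / ω) :=
  H535R3.mem_torus hω r B A

/-- adjacencies correspond to identity period maps -/
theorem adj_iff {ω : ℝ} (hω : 0 < ω) (r : ℤ) (p : ℝ × ℝ) :
    IsUpperAdjacency ω r p ↔ p.1 = r * ω ∧ 0 < p.2 / ω ∧ V203PG.Idn r (1 / ω) (p.2 / ω) := by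
  obtain ⟨B, A⟩ := p
  constructor
  · rintro ⟨h0, h⟩
    simp only at h0 h ⊢
    have hp : (B, A) ∈ Area ω r := by
      have : (B, A) ∈ {q : ℝ × ℝ | q ∈ Area ω r ∧ q.2 = A} := by rw [h]; rfl
      exact this.1
    have hp' := (mem_Area hω r B A).1 hp
    have hu : ∀ b', (b', A / ω) ∈ H535R3.Ls r (1 / ω) → b' = B / ω := by
      intro b' hb'
      have h4 : (b' * ω, A) ∈ Area ω r := by
        rw [mem_Area hω, mul_div_cancel_right₀ _ hω.ne']
        exact hb'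
      have h5 : (b' * ω, A) ∈ {q : ℝ × ℝ | q ∈ Area ω r ∧ q.2 = A} := ⟨h4, rfl⟩
      rw [h] at h5
      have h6 : b' * ω = B := congrArg Prod.fst (mem_singleton_iff.1 h5)
      rw [← h6, mul_div_cancel_right₀ _ hω.ne']
    have h3 := V203PL.single_axis (by positivity) (div_pos h0 hω) hp' hu
    refine ⟨by rwa [div_eq_iff hω.ne'] at h3, div_pos h0 hω, fun x => ?_⟩
    have h4 := H535R3.single_ident hp' hu x
    rwa [h3] at h4
  · rintro ⟨h1, h2, h3⟩
    simp only at h1 h2 h3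
    subst h1
    have hA : 0 < A := by
      have := mul_pos h2 hω
      rwa [div_mul_cancel₀ _ hω.ne'] at this
    obtain ⟨h4, h5⟩ := h3.single
    refine ⟨hA, ?_⟩
    ext ⟨B', A'⟩
    simp only [mem_ofPred_eq, mem_singleton_iff, Prod.mk.injEq]
    constructor
    · rintro ⟨h6, rfl⟩
      rw [mem_Area hω] at h6
      have := h5 _ h6
      rw [div_eq_iff hω.ne'] at this
      exact ⟨this, rfl⟩
    · rintro ⟨rfl, rfl⟩
      rw [mem_Area hω, mul_div_cancel_right₀ _ hω.ne']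
      exact ⟨h4, rfl⟩

/-- existence of the first adjacency -/
theorem first {ω : ℝ} (hω : 0 < ω) (r : ℤ) : ∃ h : ℝ, 0 < h ∧ V203PG.Idn r (1 / ω) h ∧
    (∀ x, 0 < x → V203PG.Idn r (1 / ω) x → h ≤ x) ∧
    IsKthAdjacency ω r 1 ((r : ℝ) * ω, h * ω) := by
  obtain ⟨a, hm, -, h0, ha⟩ := V203PG.heights r (ε := 1 / ω) (by positivity)
  have h1 := (ha (a 0)).2 ⟨0, rfl⟩
  have hmin : ∀ x, 0 < x → V203PG.Idn r (1 / ω) x → a 0 ≤ x := by
    intro x hx hxI
    obtain ⟨k, rfl⟩ := (ha x).1 ⟨hx, hxI⟩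
    exact hm.monotone (Nat.zero_le k)
  refine ⟨a 0, h1.1, h1.2, hmin, le_rfl, ?_, ?_⟩
  · rw [adj_iff hω]
    simp only [mul_div_cancel_right₀ _ hω.ne']
    exact ⟨trivial, h1⟩
  · have : {q : ℝ × ℝ | IsUpperAdjacency ω r q ∧ q.2 < ((r : ℝ) * ω, a 0 * ω).2} = ∅ := by
      rw [eq_empty_iff_forall_notMem]
      rintro q ⟨h2, h3⟩
      rw [adj_iff hω] at h2
      have h4 := hmin _ h2.2.1 h2.2.2
      rw [le_div_iff₀ hω] at h4
      simp only at h3
      linarith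
    rw [this, encard_empty]
    simp

/-- For every `ω ≥ 100000` the first adjacencies `A_{1,1}`, `A_{2,1}`, `A_{3,1}` exist and are
not collinear. In particular the answer to the question is negative: there is no line containing
all the points `A_{r,1}`, `r = 1, 2, …`. -/
theorem result : ∀ ω : ℝ, 100000 ≤ ω → ∃ p₁ p₂ p₃ : ℝ × ℝ,
    IsKthAdjacency ω 1 1 p₁ ∧ IsKthAdjacency ω 2 1 p₂ ∧ IsKthAdjacency ω 3 1 p₃ ∧
    ¬ Collinear ℝ {p₁, p₂, p₃} := by
  intro ω hω5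
  have hω : 0 < ω := by linarith
  have hε : 0 < 1 / ω := by positivity
  have hε1 : 1 / ω ≤ 1 / 100000 := one_div_le_one_div_of_le (by norm_num) hω5
  obtain ⟨h₁, h₁0, h₁I, h₁m, hk₁⟩ := first hω 1
  obtain ⟨h₂, h₂0, h₂I, h₂m, hk₂⟩ := first hω 2
  obtain ⟨h₃, h₃0, h₃I, h₃m, hk₃⟩ := first hω 3
  refine ⟨_, _, _, hk₁, hk₂, hk₃, ?_⟩
  have b1 : h₁ ≤ 384 / 100 := by
    obtain ⟨a, ha0, ha1, ha2⟩ := V203PG.exists_idn (n := 0) (a₁ := 2) (a₂ := 384 / 100) hε hε1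
      (by norm_num) (by push_cast; linarith) (by
        have := V203PG.Iz1_lo
        simpa using this) (by
        have := V203PG.Iz1_hi
        simpa using this)
    exact (h₁m a ha0 (by simpa using ha2)).trans ha1
  have b3 : h₃ ≤ 639 / 100 := by
    obtain ⟨a, ha0, ha1, ha2⟩ := V203PG.exists_idn (n := 2) (a₁ := 4) (a₂ := 639 / 100) hε hε1
      (by norm_num) (by push_cast; linarith) (by
        have := V203PG.Iz3_lo
        push_cast
        exact this) (by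
        have := V203PG.Iz3_hi
        push_cast
        exact this)
    refine (h₃m a ha0 ?_).trans ha1
    push_cast at ha2
    exact ha2
  have b2 := V203PG.low2 hε hε1 h₂0 h₂I
  intro hcol
  rw [collinear_iff_of_mem (p₀ := (((1:ℤ) : ℝ) * ω, h₁ * ω)) (by simp)] at hcol
  obtain ⟨v, hv⟩ := hcol
  obtain ⟨r₂, hr₂⟩ := hv (((2:ℤ) : ℝ) * ω, h₂ * ω) (by simp)
  obtain ⟨r₃, hr₃⟩ := hv (((3:ℤ) : ℝ) * ω, h₃ * ω) (by simp)
  simp only [vadd_eq_add] at hr₂ hr₃
  have e1 := congrArg Prod.fst hr₂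
  have e2 := congrArg Prod.snd hr₂
  have e3 := congrArg Prod.fst hr₃
  have e4 := congrArg Prod.snd hr₃
  simp only [Prod.fst_add, Prod.smul_fst, Prod.snd_add, Prod.smul_snd, smul_eq_mul] at e1 e2 e3 e4
  push_cast at e1 e3
  have f1 : r₂ * v.1 = ω := by linarith
  have f3 : r₃ * v.1 = 2 * ω := by linarith
  have hv1 : v.1 ≠ 0 := by
    intro h0
    rw [h0, mul_zero] at f1
    linarith
  have f5 : r₃ = 2 * r₂ := by
    have : (r₃ - 2 * r₂) * v.1 = 0 := by linear_combination f3 - 2 * f1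
    rcases mul_eq_zero.1 this with h | h
    · linarith
    · exact absurd h hv1
  have f6 : (h₃ + h₁ - 2 * h₂) * ω = 0 := by
    rw [f5] at e4
    linear_combination e4 - 2 * e2
  rcases mul_eq_zero.1 f6 with h | h
  · linarith
  · linarith

end Pool.Agent.Results.MP_1ba01c_an.FirstNotCollinear
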